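import Mathlib
import Pool.Agent.H755R5.Kum.Stmts

/-!
Project KUM (helper755), Task B (helper767): `log (1 / (s - 1)) ≤ ∑ p^(-s) + C` for `1 < s < 2`.
-/

set_option autoImplicit false

namespace Pool.Agent.H767R5.Kum

open Finset Filter Topology

/-- `n^(1-s) - (n+1)^(1-s) ≤ (s-1) n^(-s)` for `n ≥ 1`. -/
theorem tele {s : ℝ} (hs : 1 < s) (n : ℕ) (hn : 0 < n) :
    (n : ℝ) ^ (1 - s) - ((n : ℝ) + 1) ^ (1 - s) ≤ (s - 1) * (n : ℝ) ^ (-s) := by
  have hn' : (0 : ℝ) < n := by exact_mod_cast hn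
  have h1 : ((n : ℝ) + 1) = n * (1 + 1 / n) := by field_simp
  have hpos : (0 : ℝ) < 1 + 1 / n := by positivity
  have h2 : ((n : ℝ) + 1) ^ (1 - s) = (n : ℝ) ^ (1 - s) * (1 + 1 / (n : ℝ)) ^ (1 - s) := by
    rw [h1, Real.mul_rpow hn'.le hpos.le]
  have h3 : (n : ℝ) ^ (-s) = (n : ℝ) ^ (1 - s) * (1 / n) := by
    rw [show (-s) = (1 - s) - 1 by ring, Real.rpow_sub_one hn'.ne']
    ring
  have h4 : 1 - (s - 1) * (1 / (n : ℝ)) ≤ (1 + 1 / (n : ℝ)) ^ (1 - s) := by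
    rw [Real.rpow_def_of_pos hpos]
    have hlog : Real.log (1 + 1 / (n : ℝ)) ≤ 1 / n := by
      have := Real.log_le_sub_one_of_pos hpos
      linarith
    have h5 : Real.log (1 + 1 / (n : ℝ)) * (1 - s) ≥ 1 / n * (1 - s) := by
      have : (1 - s) ≤ 0 := by linarith
      exact mul_le_mul_of_nonpos_right hlog this
    have h6 := Real.add_one_le_exp (Real.log (1 + 1 / (n : ℝ)) * (1 - s))
    nlinarith
  have h7 : (0 : ℝ) < (n : ℝ) ^ (1 - s) := Real.rpow_pos_of_pos hn' _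
  rw [h2, h3]
  nlinarith

/-- Partial sums. -/
theorem partial_sum {s : ℝ} (hs : 1 < s) (N : ℕ) :
    1 - ((N : ℝ) + 1) ^ (1 - s) ≤ (s - 1) * ∑ n ∈ range (N + 1), (n : ℝ) ^ (-s) := by
  induction N with
  | zero =>
    simp
    have : (0 : ℝ) ^ (-s) = 0 := Real.zero_rpow (by linarith)
    rw [this]; simp
  | succ N ih =>
    rw [sum_range_succ]
    have h := tele hs (N + 1) (Nat.succ_pos N)
    push_cast at h ⊢
    linarith

/-- `1 / (s - 1) ≤ ∑ n^(-s)`. -/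
theorem zeta_lower {s : ℝ} (hs : 1 < s) :
    1 / (s - 1) ≤ ∑' n : ℕ, (n : ℝ) ^ (-s) := by
  have hsum : Summable (fun n : ℕ => (n : ℝ) ^ (-s)) := by
    exact Real.summable_nat_rpow.mpr (by linarith)
  have hs0 : 0 < s - 1 := by linarith
  rw [div_le_iff₀' hs0]
  have ht1 : Tendsto (fun N : ℕ => (s - 1) * ∑ n ∈ range (N + 1), (n : ℝ) ^ (-s)) atTop
      (𝓝 ((s - 1) * ∑' n : ℕ, (n : ℝ) ^ (-s))) := by
    apply Tendsto.const_mul
    exact (tendsto_add_atTop_iff_nat 1).mpr hsum.hasSum.tendsto_sum_nat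
  have ht2 : Tendsto (fun N : ℕ => 1 - ((N : ℝ) + 1) ^ (1 - s)) atTop (𝓝 (1 - 0)) := by
    apply Tendsto.const_sub
    have h1 : Tendsto (fun x : ℝ => x ^ (-(s - 1))) atTop (𝓝 0) := tendsto_rpow_neg_atTop hs0
    have h2 : Tendsto (fun N : ℕ => ((N : ℝ) + 1)) atTop atTop :=
      tendsto_atTop_add_const_right _ _ tendsto_natCast_atTop_atTop
    have h3 := h1.comp h2
    simpa [Function.comp_def] using h3
  have := le_of_tendsto_of_tendsto' ht2 ht1 (partial_sum hs)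
  simpa using this

/-- `(1 - x)⁻¹ ≤ exp (x + 2 x ^ 2)` for `0 ≤ x ≤ 1/2`. -/
theorem inv_le_exp {x : ℝ} (h0 : 0 ≤ x) (h1 : x ≤ 1 / 2) :
    (1 - x)⁻¹ ≤ Real.exp (x + 2 * x ^ 2) := by
  have h2 : x + 2 * x ^ 2 + 1 ≤ Real.exp (x + 2 * x ^ 2) := Real.add_one_le_exp _
  refine le_trans ?_ h2
  rw [inv_le_iff_one_le_mul₀ (by linarith)]
  nlinarith [mul_nonneg h0 h0, mul_nonneg (mul_nonneg h0 h0) (by linarith : 0 ≤ 1 / 2 - x)]

/-- **Task B.** -/
theorem taskB : Pool.Agent.H755R5.Kum.TaskB := by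
  classical
  refine ⟨2 * ∑' p : Nat.Primes, ((p : ℕ) : ℝ) ^ (-(2 : ℝ)), ?_⟩
  intro s hs1 hs2
  have hs0 : 0 < s - 1 := by linarith
  have hsumN : Summable (fun n : ℕ => (n : ℝ) ^ (-s)) :=
    Real.summable_nat_rpow.mpr (by linarith)
  have hsumP : Summable (fun p : Nat.Primes => ((p : ℕ) : ℝ) ^ (-s)) :=
    Nat.Primes.summable_rpow.mpr (by linarith)
  have hsumP2 : Summable (fun p : Nat.Primes => ((p : ℕ) : ℝ) ^ (-(2 : ℝ))) :=
    Nat.Primes.summable_rpow.mpr (by norm_num)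
  let f : ℕ →*₀ ℝ :=
    { toFun := fun n => (n : ℝ) ^ (-s)
      map_zero' := by
        simp only [Nat.cast_zero]
        exact Real.zero_rpow (by linarith)
      map_one' := by simp
      map_mul' := by
        intro a b
        push_cast
        exact Real.mul_rpow (Nat.cast_nonneg a) (Nat.cast_nonneg b) }
  have hf : ∀ n, f n = (n : ℝ) ^ (-s) := fun _ => rfl
  have hnorm : Summable (fun n => ‖f n‖) := by
    refine hsumN.congr ?_
    intro n
    rw [hf, Real.norm_of_nonneg (Real.rpow_nonneg (Nat.cast_nonneg n) _)]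
  have hprod := EulerProduct.eulerProduct_completely_multiplicative_hasProd hnorm
  have hle : ∑' n : ℕ, f n ≤ Real.exp ((∑' p : Nat.Primes, ((p : ℕ) : ℝ) ^ (-s)) +
      2 * ∑' p : Nat.Primes, ((p : ℕ) : ℝ) ^ (-(2 : ℝ))) := by
    refine le_of_tendsto' hprod ?_
    intro F
    have hstep : ∀ p ∈ F, (1 - f (p : ℕ))⁻¹ ≤
        Real.exp (((p : ℕ) : ℝ) ^ (-s) + 2 * ((p : ℕ) : ℝ) ^ (-(2 : ℝ))) := by
      intro p _
      have hp2 : (2 : ℝ) ≤ ((p : ℕ) : ℝ) := by exact_mod_cast p.2.two_le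
      have hx0 : 0 ≤ f (p : ℕ) := by rw [hf]; positivity
      have hx1 : f (p : ℕ) ≤ ((p : ℕ) : ℝ) ^ (-(1 : ℝ)) := by
        rw [hf]
        exact Real.rpow_le_rpow_of_exponent_le (by linarith) (by linarith)
      have hx2 : ((p : ℕ) : ℝ) ^ (-(1 : ℝ)) ≤ 1 / 2 := by
        rw [Real.rpow_neg_one, one_div]
        exact inv_anti₀ (by norm_num) hp2
      refine (inv_le_exp hx0 (hx1.trans hx2)).trans ?_
      apply Real.exp_le_exp.mpr
      have hsq : (f (p : ℕ)) ^ 2 ≤ ((p : ℕ) : ℝ) ^ (-(2 : ℝ)) := by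
        have h1 : (f (p : ℕ)) ^ 2 ≤ (((p : ℕ) : ℝ) ^ (-(1 : ℝ))) ^ 2 := by
          exact pow_le_pow_left₀ hx0 hx1 2
        refine h1.trans (le_of_eq ?_)
        rw [← Real.rpow_natCast, ← Real.rpow_mul (by linarith)]
        norm_num
      rw [← hf]
      linarith
    calc ∏ p ∈ F, (1 - f (p : ℕ))⁻¹
        ≤ ∏ p ∈ F, Real.exp (((p : ℕ) : ℝ) ^ (-s) + 2 * ((p : ℕ) : ℝ) ^ (-(2 : ℝ))) := by
          apply Finset.prod_le_prod
          · intro p _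
            have hp2 : (2 : ℝ) ≤ ((p : ℕ) : ℝ) := by exact_mod_cast p.2.two_le
            have hx1 : f (p : ℕ) ≤ 1 := by
              rw [hf]
              exact Real.rpow_le_one_of_one_le_of_nonpos (by linarith) (by linarith)
            exact inv_nonneg.mpr (by linarith)
          · exact hstep
      _ = Real.exp (∑ p ∈ F, (((p : ℕ) : ℝ) ^ (-s) + 2 * ((p : ℕ) : ℝ) ^ (-(2 : ℝ)))) := by
          rw [Real.exp_sum]
      _ ≤ _ := by
          apply Real.exp_le_exp.mpr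
          rw [sum_add_distrib, ← mul_sum]
          have h1 : ∑ p ∈ F, ((p : ℕ) : ℝ) ^ (-s) ≤ ∑' p : Nat.Primes, ((p : ℕ) : ℝ) ^ (-s) :=
            hsumP.sum_le_tsum F (fun p _ => Real.rpow_nonneg (Nat.cast_nonneg _) _)
          have h2 : ∑ p ∈ F, ((p : ℕ) : ℝ) ^ (-(2 : ℝ)) ≤
              ∑' p : Nat.Primes, ((p : ℕ) : ℝ) ^ (-(2 : ℝ)) :=
            hsumP2.sum_le_tsum F (fun p _ => Real.rpow_nonneg (Nat.cast_nonneg _) _)
          linarith
  have hz := zeta_lower hs1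
  have h1 : 1 / (s - 1) ≤ Real.exp ((∑' p : Nat.Primes, ((p : ℕ) : ℝ) ^ (-s)) +
      2 * ∑' p : Nat.Primes, ((p : ℕ) : ℝ) ^ (-(2 : ℝ))) := by
    refine hz.trans (le_trans (le_of_eq ?_) hle)
    rfl
  rw [Real.log_le_iff_le_exp (by positivity)]
  exact h1

end Pool.Agent.H767R5.Kum
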